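import Pool.Agent.N912.LC.Stm2

/-!
# LC7b: from monic polynomials and windows bounded away from zero to all quadratic polynomials of
negative discriminant and all windows
-/

set_option autoImplicit false

namespace Pool.Agent.N492.LC

open Finset Filter
open Pool.Agent.N912.LC
open Pool.Agent.W78.GA (Qd)
open Pool.Agent.N912.EP.W78EG

noncomputable section

/-! ### Harmonic sums -/

lemma harm (N : ℕ) : 1 ≤ N → ∑ X ∈ Icc 1 N, 1 / (X : ℝ) ≤ 1 + Real.log N := by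
  induction N with
  | zero => intro h; omega
  | succ N ih =>
    intro _
    rcases Nat.eq_zero_or_pos N with rfl | hN
    · simp
    · rw [Finset.sum_Icc_succ_top (by omega)]
      have h1 := ih hN
      have hN' : (0 : ℝ) < N := by exact_mod_cast hN
      have h2 := Real.one_sub_inv_le_log_of_pos (show (0 : ℝ) < ((N : ℝ) + 1) / N by positivity)
      rw [Real.log_div (by positivity) (by positivity)] at h2
      have h3 : 1 - (((N : ℝ) + 1) / N)⁻¹ = 1 / ((N : ℝ) + 1) := by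
        field_simp
        ring
      rw [h3] at h2
      push_cast
      linarith

lemma sqsum (N : ℕ) : 1 ≤ N → ∑ X ∈ Icc 1 N, 1 / (X : ℝ) ^ 2 ≤ 2 - 1 / (N : ℝ) := by
  induction N with
  | zero => intro h; omega
  | succ N ih =>
    intro _
    rcases Nat.eq_zero_or_pos N with rfl | hN
    · norm_num
    · rw [Finset.sum_Icc_succ_top (by omega)]
      have h1 := ih hN
      have hN' : (0 : ℝ) < N := by exact_mod_cast hN
      have h2 : 1 / ((N : ℝ) + 1) ^ 2 ≤ 1 / N - 1 / ((N : ℝ) + 1) := by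
        rw [div_sub_div _ _ (by positivity) (by positivity), div_le_div_iff₀ (by positivity)
          (by positivity)]
        nlinarith
      push_cast
      linarith

lemma sqsum' (N : ℕ) : ∑ X ∈ Icc 1 N, 1 / (X : ℝ) ^ 2 ≤ 2 := by
  rcases Nat.eq_zero_or_pos N with rfl | hN
  · simp
  · have := sqsum N hN
    have h2 : (0 : ℝ) ≤ 1 / (N : ℝ) := by positivity
    linarith

/-! ### Values -/

lemma cmn_norm {N : ℕ} {g : ℕ → ℂ} (h : CMN N g) {n : ℕ} (hn : n ≠ 0) : ‖g n‖ = 1 := by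
  have h1 := h.pow n hn
  have h2 : ‖g n‖ ^ N = 1 := by rw [← norm_pow, h1, norm_one]
  have := h.pos
  exact (pow_eq_one_iff_of_nonneg (norm_nonneg _) (by omega)).1 h2

/-- the bound of the weight -/
def Wb {q : ℕ} (w : ZMod q → ZMod q → ZMod q → ℂ) [NeZero q] : ℝ := ∑ α, ∑ β, ∑ γ, ‖w α β γ‖

lemma Wb_nonneg {q : ℕ} [NeZero q] (w : ZMod q → ZMod q → ZMod q → ℂ) : 0 ≤ Wb w :=
  sum_nonneg fun _ _ => sum_nonneg fun _ _ => sum_nonneg fun _ _ => norm_nonneg _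

lemma le_Wb {q : ℕ} [NeZero q] (w : ZMod q → ZMod q → ZMod q → ℂ) (α β γ : ZMod q) :
    ‖w α β γ‖ ≤ Wb w := by
  unfold Wb
  refine le_trans ?_ (single_le_sum (f := fun α => ∑ β, ∑ γ, ‖w α β γ‖)
    (fun _ _ => sum_nonneg fun _ _ => sum_nonneg fun _ _ => norm_nonneg _) (mem_univ α))
  refine le_trans ?_ (single_le_sum (f := fun β => ∑ γ, ‖w α β γ‖)
    (fun _ _ => sum_nonneg fun _ _ => norm_nonneg _) (mem_univ β))
  exact single_le_sum (f := fun γ => ‖w α β γ‖) (fun _ _ => norm_nonneg _) (mem_univ γ)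

lemma term_le {q N : ℕ} [NeZero q] {g h : ℕ → ℂ} (hg : CMN N g) (hh : CMN N h)
    (w : ZMod q → ZMod q → ZMod q → ℂ) (α β γ : ZMod q) {d e : ℕ} (hd : d ≠ 0) (he : e ≠ 0) :
    ‖w α β γ * (g d * h e)‖ ≤ Wb w := by
  rw [norm_mul, norm_mul, cmn_norm hg hd, cmn_norm hh he, mul_one, mul_one]
  exact le_Wb w α β γ

/-! ### Windows which contain `0` -/

lemma TP_pos {t c : ℤ} {X : ℝ} {y : ℕ × ℕ × ℕ} (hy : y ∈ TP t c X) : 1 ≤ y.1 ∧ 1 ≤ y.2.1 := by
  unfold TP at hy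
  rw [mem_filter, mem_product, mem_product, mem_Icc, mem_Icc] at hy
  exact ⟨hy.1.1.1, hy.1.2.1.1⟩

/-- CORE1 for windows which may contain `0` -/
lemma core1' (h1 : S_CORE1) (h8 : S_LC8) : ∀ t c : ℤ, (t = 0 ∨ t = 1) → t ^ 2 < 4 * c →
  ∀ (N : ℕ) (g h : ℕ → ℂ),
  CMN N g → CMN N h → Apd N (gn h : Qd t c → ℂ) → ∀ q : ℕ, 1 ≤ q →
  ∀ w : ZMod q → ZMod q → ZMod q → ℂ, ∀ (s₁ s₂ s₃ s₄ : ℝ), 0 ≤ s₁ → s₁ < s₂ → s₂ ≤ 1 → 0 ≤ s₃ →
  s₃ < s₄ → s₄ ≤ 1 → ∀ ε : ℝ, 0 < ε → ∃ N₀ : ℕ, ∀ N' : ℕ, N₀ ≤ N' →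
    ∑ X ∈ Icc 1 N', 1 / (X : ℝ) ^ 2 * ‖∑ y ∈ TW t c s₁ s₂ s₃ s₄ X,
      w y.2.2 y.1 y.2.1 * (g y.1 * h y.2.1)‖ ≤ ε * Real.log N' := by
  classical
  intro t c ht htc N g h hg hh hap q hq w s₁ s₂ s₃ s₄ hs1 hs12 hs2 hs3 hs34 hs4 ε hε
  have : NeZero q := ⟨by omega⟩
  obtain ⟨C, hC⟩ := h8 t c ht htc
  obtain ⟨D, hD⟩ : ∃ D : ℝ, D = 2 * (Wb w * |C|) + 1 := ⟨_, rfl⟩
  have hWn := Wb_nonneg w
  have hD0 : 0 < D := by
    rw [hD]
    have : 0 ≤ Wb w * |C| := mul_nonneg hWn (abs_nonneg _)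
    linarith
  -- the cutting parameter
  obtain ⟨δ, hδ0, hδ2, hδ4, hδε⟩ : ∃ δ : ℝ, 0 < δ ∧ δ < s₂ ∧ δ < s₄ ∧ D * Real.sqrt δ ≤ ε / 4 := by
    refine ⟨min (min (s₂ / 2) (s₄ / 2)) ((ε / (4 * D)) ^ 2), ?_, ?_, ?_, ?_⟩
    · refine lt_min (lt_min (by linarith) (by linarith)) (by positivity)
    · refine lt_of_le_of_lt ((min_le_left _ _).trans (min_le_left _ _)) (by linarith)
    · refine lt_of_le_of_lt ((min_le_left _ _).trans (min_le_right _ _)) (by linarith)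
    · have e1 : Real.sqrt (min (min (s₂ / 2) (s₄ / 2)) ((ε / (4 * D)) ^ 2)) ≤ ε / (4 * D) := by
        rw [show ε / (4 * D) = Real.sqrt ((ε / (4 * D)) ^ 2) from
          (Real.sqrt_sq (by positivity)).symm]
        refine Real.sqrt_le_sqrt ?_
        rw [Real.sqrt_sq (by positivity)]
        exact min_le_right _ _
      calc _ ≤ D * (ε / (4 * D)) := mul_le_mul_of_nonneg_left e1 hD0.le
        _ = ε / 4 := by field_simp
  obtain ⟨N₁, hN₁⟩ := h1 t c ht htc N g h hg hh hap q hq w (max s₁ δ) s₂ (max s₃ δ) s₄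
    (lt_max_of_lt_right hδ0) (max_lt hs12 hδ2) hs2 (lt_max_of_lt_right hδ0) (max_lt hs34 hδ4) hs4
    (ε / 2) (by positivity)
  refine ⟨max N₁ 3, fun N' hN' => ?_⟩
  have hN3 : 3 ≤ N' := (le_max_right _ _).trans hN'
  have hmain := hN₁ N' ((le_max_left _ _).trans hN')
  have hlog : 1 ≤ Real.log N' := by
    rw [← Real.log_exp 1]
    refine Real.log_le_log (Real.exp_pos _) ?_
    have : (3 : ℝ) ≤ N' := by exact_mod_cast hN3
    have h2 := Real.exp_one_lt_d9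
    linarith
  -- one scale
  have hone : ∀ X ∈ Icc 1 N', 1 / (X : ℝ) ^ 2 * ‖∑ y ∈ TW t c s₁ s₂ s₃ s₄ X,
      w y.2.2 y.1 y.2.1 * (g y.1 * h y.2.1)‖ ≤
      1 / (X : ℝ) ^ 2 * ‖∑ y ∈ TW t c (max s₁ δ) s₂ (max s₃ δ) s₄ X,
        w y.2.2 y.1 y.2.1 * (g y.1 * h y.2.1)‖ + D * Real.sqrt δ * (1 / (X : ℝ)) := by
    intro X hX
    rw [mem_Icc] at hX
    have hX0 : (0 : ℝ) < X := by
      have : 0 < X := by omega
      exact_mod_cast this
    have hsub : TW t c (max s₁ δ) s₂ (max s₃ δ) s₄ X ⊆ TW t c s₁ s₂ s₃ s₄ X := by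
      intro y hy
      unfold TW at hy ⊢
      rw [mem_filter] at hy ⊢
      obtain ⟨e0, e1, e2, e3, e4⟩ := hy
      refine ⟨e0, lt_of_le_of_lt ?_ e1, e2, lt_of_le_of_lt ?_ e3, e4⟩
      · exact mul_le_mul_of_nonneg_right (le_max_left _ _) hX0.le
      · exact mul_le_mul_of_nonneg_right (le_max_left _ _) hX0.le
    have hcard : ∀ (P : ℕ × ℕ × ℕ → ℕ), (∀ m : ℕ, 1 ≤ m → m ≤ X →
        (((TP t c X).filter (fun y => P y ≤ m)).card : ℝ) ≤ C * Real.sqrt (m * X)) →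
        (∀ y ∈ TP t c X, 1 ≤ P y) →
        (((TP t c X).filter (fun y => (P y : ℝ) ≤ δ * X)).card : ℝ) ≤ |C| * (Real.sqrt δ * X) := by
      intro P hP hP1
      rcases Nat.eq_zero_or_pos ⌊δ * X⌋₊ with h0 | h0
      · have e1 : (TP t c X).filter (fun y => (P y : ℝ) ≤ δ * X) = ∅ := by
          rw [filter_eq_empty_iff]
          intro y hy hle
          have e2 := hP1 y hy
          have e3 : P y ≤ ⌊δ * X⌋₊ := Nat.le_floor hle
          omega
        rw [e1, card_empty, Nat.cast_zero]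
        positivity
      · have e1 : ⌊δ * X⌋₊ ≤ X := by
          have : δ * X ≤ X := by
            have : δ ≤ 1 := by linarith
            nlinarith
          exact (Nat.floor_le_floor this).trans (Nat.floor_natCast X).le
        have e2 := hP _ h0 e1
        have e3 : (TP t c X).filter (fun y => (P y : ℝ) ≤ δ * X) =
            (TP t c X).filter (fun y => P y ≤ ⌊δ * X⌋₊) := by
          refine filter_congr fun y _ => ?_
          rw [Nat.le_floor_iff (by positivity)]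
        rw [e3]
        refine e2.trans ?_
        have e4 : Real.sqrt (⌊δ * X⌋₊ * X) ≤ Real.sqrt δ * X := by
          have e5 : Real.sqrt δ * X = Real.sqrt (δ * X * X) := by
            rw [mul_assoc, Real.sqrt_mul hδ0.le, Real.sqrt_mul_self hX0.le]
          rw [e5]
          refine Real.sqrt_le_sqrt ?_
          exact mul_le_mul_of_nonneg_right (Nat.floor_le (by positivity)) hX0.le
        exact mul_le_mul (le_abs_self C) e4 (Real.sqrt_nonneg _) (abs_nonneg _)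
    have hc1 := hcard (fun y => y.1) (fun m hm hmX => (hC m X hm hmX).1) (fun y hy => (TP_pos hy).1)
    have hc2 := hcard (fun y => y.2.1) (fun m hm hmX => (hC m X hm hmX).2)
      (fun y hy => (TP_pos hy).2)
    have hsd : TW t c s₁ s₂ s₃ s₄ X \ TW t c (max s₁ δ) s₂ (max s₃ δ) s₄ X ⊆
        (TP t c X).filter (fun y => (y.1 : ℝ) ≤ δ * X) ∪
        (TP t c X).filter (fun y => (y.2.1 : ℝ) ≤ δ * X) := by
      intro y hy
      rw [Finset.mem_sdiff] at hy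
      obtain ⟨hy1, hy2⟩ := hy
      unfold TW at hy1 hy2
      rw [mem_filter] at hy1 hy2
      obtain ⟨e0, e1, e2, e3, e4⟩ := hy1
      rw [mem_union, mem_filter, mem_filter]
      by_contra hcon
      push Not at hcon
      apply hy2
      refine ⟨e0, ?_, e2, ?_, e4⟩
      · rw [max_mul_of_nonneg _ _ hX0.le]
        exact max_lt e1 (hcon.1 e0)
      · rw [max_mul_of_nonneg _ _ hX0.le]
        exact max_lt e3 (hcon.2 e0)
    have hrest : ‖∑ y ∈ TW t c s₁ s₂ s₃ s₄ X \ TW t c (max s₁ δ) s₂ (max s₃ δ) s₄ X,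
        w y.2.2 y.1 y.2.1 * (g y.1 * h y.2.1)‖ ≤ D * Real.sqrt δ * X := by
      have e1 : ∀ y ∈ TW t c s₁ s₂ s₃ s₄ X \ TW t c (max s₁ δ) s₂ (max s₃ δ) s₄ X,
          ‖w y.2.2 y.1 y.2.1 * (g y.1 * h y.2.1)‖ ≤ Wb w := by
        intro y hy
        rw [Finset.mem_sdiff, TW, mem_filter] at hy
        have := TP_pos hy.1.1
        exact term_le hg hh w _ _ _ (by omega) (by omega)
      refine (norm_sum_le_of_le _ e1).trans ?_
      rw [sum_const, nsmul_eq_mul]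
      have e2 : ((TW t c s₁ s₂ s₃ s₄ X \ TW t c (max s₁ δ) s₂ (max s₃ δ) s₄ X).card : ℝ) ≤
          |C| * (Real.sqrt δ * X) + |C| * (Real.sqrt δ * X) := by
        refine le_trans ?_ (add_le_add hc1 hc2)
        exact_mod_cast (card_le_card hsd).trans (card_union_le _ _)
      refine (mul_le_mul_of_nonneg_right e2 hWn).trans ?_
      have e3 : 0 ≤ Real.sqrt δ * X := by positivity
      rw [hD]
      nlinarith
    rw [← sum_sdiff hsub]
    have e1 : (0 : ℝ) ≤ 1 / (X : ℝ) ^ 2 := by positivity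
    calc _ ≤ 1 / (X : ℝ) ^ 2 * (D * Real.sqrt δ * X + ‖∑ y ∈ TW t c (max s₁ δ) s₂ (max s₃ δ) s₄ X,
        w y.2.2 y.1 y.2.1 * (g y.1 * h y.2.1)‖) :=
          mul_le_mul_of_nonneg_left ((norm_add_le _ _).trans (add_le_add hrest le_rfl)) e1
      _ = _ := by
        field_simp
        ring
  refine (sum_le_sum hone).trans ?_
  rw [sum_add_distrib, ← mul_sum]
  have h3 := harm N' (by omega)
  have h4 : D * Real.sqrt δ * ∑ X ∈ Icc 1 N', 1 / (X : ℝ) ≤ ε / 4 * (1 + Real.log N') := by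
    have h5 : (0 : ℝ) ≤ ∑ X ∈ Icc 1 N', 1 / (X : ℝ) := sum_nonneg fun _ _ => by positivity
    exact mul_le_mul hδε h3 h5 (by positivity)
  nlinarith

/-! ### General polynomials -/

lemma pv_pos {A B C t c : ℤ} (hA : 0 < A) (htc : t ^ 2 < 4 * c)
    (hD : B ^ 2 - 4 * A * C = t ^ 2 - 4 * c) (n : ℤ) : 0 < A * n ^ 2 + B * n + C := by
  have h1 : 4 * A * (A * n ^ 2 + B * n + C) = (2 * A * n + B) ^ 2 - (B ^ 2 - 4 * A * C) := by ring
  rw [hD] at h1
  by_contra hcon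
  push Not at hcon
  have h2 : 4 * A * (A * n ^ 2 + B * n + C) ≤ 0 := mul_nonpos_of_nonneg_of_nonpos (by linarith) hcon
  have h3 := sq_nonneg (2 * A * n + B)
  linarith

lemma fin_small (P : ℕ → ℤ) (hP : ∀ n, 0 < P n) (n₀ : ℕ) :
    {y : ℕ × ℕ × ℕ | y.2.2 < n₀ ∧ (y.1 : ℤ) * y.2.1 = P y.2.2}.Finite := by
  obtain ⟨b, hb⟩ : ∃ b : ℕ, b = ∑ n ∈ range n₀, (P n).toNat := ⟨_, rfl⟩
  refine (range (b + 1) ×ˢ range (b + 1) ×ˢ range n₀).finite_toSet.subset ?_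
  rintro ⟨d, e, n⟩ ⟨h1, h2⟩
  simp only at h1 h2
  have h3 : (P n).toNat ≤ b := by
    rw [hb]
    exact single_le_sum (f := fun n => (P n).toNat) (fun _ _ => Nat.zero_le _) (mem_range.2 h1)
  have h4 := hP n
  rw [← h2] at h4 h3
  have h5 : 0 < (d : ℤ) * e := h4
  have h6 : d * e ≤ b := by
    have : ((d : ℤ) * e).toNat = d * e := by
      rw [← Nat.cast_mul, Int.toNat_natCast]
    rw [this] at h3
    exact h3
  have h7 : 0 < d * e := by exact_mod_cast h5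
  have h8 : 0 < d := Nat.pos_of_mul_pos_right h7
  have h9 : 0 < e := Nat.pos_of_mul_pos_left h7
  rw [Finset.mem_coe, mem_product, mem_product, mem_range, mem_range, mem_range]
  refine ⟨?_, ?_, h1⟩
  · have := Nat.le_mul_of_pos_right d h9
    simp only
    omega
  · have := Nat.le_mul_of_pos_left e h8
    simp only
    omega

open Classical in
/-- the weight modulo `q a` -/
def wt {q : ℕ} (w : ZMod q → ZMod q → ZMod q → ℂ) (a : ℕ) (κ : ℤ) (α β γ : ZMod (q * a)) : ℂ :=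
  if ((a : ℤ) ∣ (α.val : ℤ) - κ) ∧ a ∣ β.val then
    w (((((α.val : ℤ) - κ) / a : ℤ)) : ZMod q) ((β.val / a : ℕ) : ZMod q) ((γ.val : ℕ) : ZMod q)
  else 0

lemma wt_val {q a : ℕ} (hq : 1 ≤ q) (ha : 1 ≤ a) (w : ZMod q → ZMod q → ZMod q → ℂ) (κ : ℤ)
    (ν D e : ℕ) : (((a : ℤ) ∣ (ν : ℤ) - κ ∧ a ∣ D) → wt w a κ ν D e =
      w ((((ν : ℤ) - κ) / a : ℤ) : ZMod q) ((D / a : ℕ) : ZMod q) (e : ZMod q)) ∧
    (¬ ((a : ℤ) ∣ (ν : ℤ) - κ ∧ a ∣ D) → wt w a κ ν D e = 0) := by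
  have : NeZero (q * a) := ⟨by positivity⟩
  have haz : (a : ℤ) ≠ 0 := by
    have : a ≠ 0 := by omega
    exact_mod_cast this
  have e1 : (ν : ℤ) = ((ν % (q * a) : ℕ) : ℤ) + a * (q * (ν / (q * a) : ℕ)) := by
    have := Nat.mod_add_div ν (q * a)
    have h2 : (ν : ℤ) = ((ν % (q * a) + q * a * (ν / (q * a)) : ℕ) : ℤ) := by rw [this]
    rw [h2]
    push_cast
    have h3 := Nat.mod_mod ν (q * a)
    ring_nf
  have e2 : D = D % (q * a) + a * (q * (D / (q * a))) := by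
    have := Nat.mod_add_div D (q * a)
    rw [← mul_assoc, mul_comm a q]
    exact this.symm
  have e3 : ((e % (q * a) : ℕ) : ZMod q) = (e : ZMod q) := by
    have := Nat.mod_add_div e (q * a)
    conv_rhs => rw [← this]
    push_cast
    simp
  have hd1 : (a : ℤ) ∣ (((ν : ZMod (q * a)).val : ℕ) : ℤ) - κ ↔ (a : ℤ) ∣ (ν : ℤ) - κ := by
    rw [ZMod.val_natCast]
    conv_rhs => rw [e1]
    rw [show ((ν % (q * a) : ℕ) : ℤ) + a * (q * (ν / (q * a) : ℕ)) - κ =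
      ((ν % (q * a) : ℕ) : ℤ) - κ + a * (q * (ν / (q * a) : ℕ)) by ring]
    exact ⟨fun h => dvd_add h (dvd_mul_right _ _), fun h => (dvd_add_left (dvd_mul_right _ _)).1 h⟩
  have hd2 : a ∣ ((D : ZMod (q * a)).val : ℕ) ↔ a ∣ D := by
    rw [ZMod.val_natCast]
    conv_rhs => rw [e2]
    exact ⟨fun h => dvd_add h (dvd_mul_right _ _), fun h => (Nat.dvd_add_left (dvd_mul_right _ _)).1 h⟩
  constructor
  · rintro ⟨h1, h2⟩
    unfold wt
    rw [if_pos ⟨hd1.2 h1, hd2.2 h2⟩]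
    rw [ZMod.val_natCast, ZMod.val_natCast, ZMod.val_natCast, e3]
    have h3 : (((ν : ℤ) - κ) / a : ℤ) = (((ν % (q * a) : ℕ) : ℤ) - κ) / a +
        q * (ν / (q * a) : ℕ) := by
      conv_lhs => rw [e1]
      rw [show ((ν % (q * a) : ℕ) : ℤ) + a * (q * (ν / (q * a) : ℕ)) - κ =
        ((ν % (q * a) : ℕ) : ℤ) - κ + a * (q * (ν / (q * a) : ℕ)) by ring,
        Int.add_mul_ediv_left _ _ haz]
    have h4 : ((D / a : ℕ) : ZMod q) = ((D % (q * a) / a : ℕ) : ZMod q) := by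
      have h5 : D / a = D % (q * a) / a + q * (D / (q * a)) := by
        conv_lhs => rw [e2]
        rw [Nat.add_mul_div_left _ _ (by omega)]
      rw [h5]
      push_cast
      simp
    have h6 : ((((ν : ℤ) - κ) / a : ℤ) : ZMod q) =
        (((((ν % (q * a) : ℕ) : ℤ) - κ) / a : ℤ) : ZMod q) := by
      rw [h3]
      push_cast
      simp
    rw [h6, h4]
  · intro h
    unfold wt
    rw [if_neg]
    rwa [hd1, hd2]

/-- one scale -/
lemma scale {A B C t c κ : ℤ} {a : ℕ} (ha : 1 ≤ a) (haA : (a : ℤ) = A) (ht : t = 0 ∨ t = 1)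
    (htc : t ^ 2 < 4 * c) (hD : B ^ 2 - 4 * A * C = t ^ 2 - 4 * c) (hκ : B = 2 * κ + t)
    {N : ℕ} {g h : ℕ → ℂ} (hg : CMN N g) (hh : CMN N h) {q : ℕ} (hq : 1 ≤ q)
    (w : ZMod q → ZMod q → ZMod q → ℂ) {s₁ s₂ s₃ s₄ : ℝ} (hs1 : 0 ≤ s₁) (hs12 : s₁ < s₂)
    (hs3 : 0 ≤ s₃) (hs34 : s₃ < s₄) {L : ℕ} (hL : 1 ≤ L) (hL2 : A * s₂ ≤ L) (hL4 : s₄ ≤ L) :
    ∃ K : ℝ, 0 ≤ K ∧ ∀ X : ℕ, 1 ≤ X → ‖∑ᶠ y ∈ TQ A B C s₁ s₂ s₃ s₄ (X : ℝ),
        w y.2.2 y.1 y.2.1 * (g y.1 * h y.2.1)‖ ≤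
      ‖∑ y ∈ TW t c (A * s₁ / L) (A * s₂ / L) (s₃ / L) (s₄ / L) ((L * X : ℕ) : ℝ),
        wt w a κ y.2.2 y.1 y.2.1 * (g y.1 * h y.2.1)‖ + K := by
  classical
  have hA : 0 < A := by rw [← haA]; exact_mod_cast ha
  have ht0 : 0 ≤ t := by rcases ht with rfl | rfl <;> norm_num
  have hc0 : 0 < c := by nlinarith [sq_nonneg t]
  have hqi : NeZero q := ⟨by omega⟩
  have hqai : NeZero (q * a) := ⟨by positivity⟩
  have hAC : A * C = κ ^ 2 + t * κ + c := by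
    have : 4 * (A * C) = 4 * (κ ^ 2 + t * κ + c) := by
      rw [hκ] at hD
      linarith
    linarith
  have hfin1 := fin_small (fun n => A * (n : ℤ) ^ 2 + B * n + C)
    (fun n => pv_pos hA htc hD n) (2 * κ.natAbs + 1)
  have hfin2 := fin_small (fun n => 1 * (n : ℤ) ^ 2 + t * n + c)
    (fun n => pv_pos one_pos htc (by ring) n) (κ.natAbs + 1)
  have hga : ‖g a‖ = 1 := cmn_norm hg (by omega)
  have hga0 : g a ≠ 0 := by
    intro h0
    rw [h0, norm_zero] at hga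
    exact zero_ne_one hga
  refine ⟨Wb w * hfin1.toFinset.card + Wb (wt w a κ) * hfin2.toFinset.card, by
    have := Wb_nonneg w
    have := Wb_nonneg (wt w a κ)
    positivity, fun X hX => ?_⟩
  have hXr : (0 : ℝ) < X := by exact_mod_cast hX
  have hLr : (0 : ℝ) < L := by exact_mod_cast hL
  have hAr : (0 : ℝ) < A := by exact_mod_cast hA
  have haAr : (a : ℝ) = A := by exact_mod_cast haA
  -- facts on a triple
  have key : ∀ d e n : ℕ, (d, e, n) ∈ TQ A B C s₁ s₂ s₃ s₄ (X : ℝ) →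
      (a * d : ℕ) ≤ L * X ∧ e ≤ L * X ∧ 1 ≤ d ∧ 1 ≤ e ∧
      ((a * d : ℕ) : ℤ) * e = (A * n + κ) ^ 2 + t * (A * n + κ) + c ∧ A * n + κ ≤ (L * X : ℕ) := by
    rintro d e n ⟨h1, h2, h3, h4, h5⟩
    simp only at h1 h2 h3 h4 h5
    have e1 : (a * d : ℕ) ≤ L * X := by
      have : ((a * d : ℕ) : ℝ) ≤ ((L * X : ℕ) : ℝ) := by
        push_cast
        rw [haAr]
        calc (A : ℝ) * d ≤ A * (s₂ * X) := mul_le_mul_of_nonneg_left h3 hAr.le
          _ = (A * s₂) * X := by ring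
          _ ≤ L * X := mul_le_mul_of_nonneg_right hL2 hXr.le
      exact_mod_cast this
    have e2 : e ≤ L * X := by
      have : ((e : ℕ) : ℝ) ≤ ((L * X : ℕ) : ℝ) := by
        push_cast
        exact h5.trans (mul_le_mul_of_nonneg_right hL4 hXr.le)
      exact_mod_cast this
    have e3 : 1 ≤ d := by
      have h6 : (0 : ℝ) < d := lt_of_le_of_lt (by positivity) h2
      exact_mod_cast h6
    have e4 : 1 ≤ e := by
      have h6 : (0 : ℝ) < e := lt_of_le_of_lt (by positivity) h4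
      exact_mod_cast h6
    have e5 : ((a * d : ℕ) : ℤ) * e = (A * n + κ) ^ 2 + t * (A * n + κ) + c := by
      push_cast
      rw [haA, mul_assoc, h1]
      have : A * (A * (n : ℤ) ^ 2 + B * n + C) = A ^ 2 * n ^ 2 + B * A * n + A * C := by ring
      rw [this, hAC, hκ]
      ring
    refine ⟨e1, e2, e3, e4, e5, ?_⟩
    by_contra hcon
    push Not at hcon
    have e6 : ((a * d : ℕ) : ℤ) * e ≤ ((L * X : ℕ) : ℤ) * ((L * X : ℕ) : ℤ) := by
      exact_mod_cast Nat.mul_le_mul e1 e2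
    have e7 : (0 : ℤ) ≤ ((L * X : ℕ) : ℤ) := Int.natCast_nonneg _
    have e8 : 0 ≤ t * (A * n + κ) := mul_nonneg ht0 (by linarith)
    nlinarith
  have hSfin : (TQ A B C s₁ s₂ s₃ s₄ (X : ℝ)).Finite := by
    refine (range (L * X + 1) ×ˢ range (L * X + 1) ×ˢ
      range (L * X + κ.natAbs + 1)).finite_toSet.subset ?_
    rintro ⟨d, e, n⟩ hy
    obtain ⟨e1, e2, e3, e4, e5, e6⟩ := key d e n hy
    rw [Finset.mem_coe, mem_product, mem_product, mem_range, mem_range, mem_range]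
    simp only
    refine ⟨?_, by omega, ?_⟩
    · have : d ≤ a * d := Nat.le_mul_of_pos_left d (by omega)
      omega
    · have : (n : ℤ) ≤ A * n := by nlinarith [Int.natCast_nonneg n]
      have h7 : -(κ.natAbs : ℤ) ≤ κ := by omega
      have h8 : (n : ℤ) ≤ (L * X : ℕ) + κ.natAbs := by linarith
      omega
  obtain ⟨F, hF⟩ : ∃ F : ℕ × ℕ × ℕ → ℂ, F = fun y => w y.2.2 y.1 y.2.1 * (g y.1 * h y.2.1) :=
    ⟨_, rfl⟩
  obtain ⟨F', hF'⟩ : ∃ F' : ℕ × ℕ × ℕ → ℂ, F' = fun y =>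
    wt w a κ y.2.2 y.1 y.2.1 * (g y.1 * h y.2.1) := ⟨_, rfl⟩
  obtain ⟨T, hT⟩ : ∃ T, T = TW t c (A * s₁ / L) (A * s₂ / L) (s₃ / L) (s₄ / L)
    ((L * X : ℕ) : ℝ) := ⟨_, rfl⟩
  have hTpos : ∀ y ∈ T, 1 ≤ y.1 ∧ 1 ≤ y.2.1 := by
    intro y hy
    rw [hT, TW, mem_filter] at hy
    exact TP_pos hy.1
  have goal1 : ∑ᶠ y ∈ TQ A B C s₁ s₂ s₃ s₄ (X : ℝ), F y = ∑ y ∈ hSfin.toFinset, F y :=
    finsum_mem_eq_finite_toFinset_sum _ hSfin
  have hmapsto : ∑ y ∈ hSfin.toFinset.filter (fun y => 1 + (κ.natAbs : ℤ) ≤ A * y.2.2 + κ), F y =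
      (g a)⁻¹ * ∑ y ∈ (T.filter (fun y => (a : ℤ) ∣ (y.2.2 : ℤ) - κ ∧ a ∣ y.1)).filter
        (fun y => 1 + (κ.natAbs : ℤ) ≤ y.2.2), F' y := by
    rw [mul_sum]
    refine sum_nbij' (fun y => (a * y.1, y.2.1, (A * y.2.2 + κ).toNat))
      (fun y => (y.1 / a, y.2.1, (((y.2.2 : ℤ) - κ) / A).toNat)) ?_ ?_ ?_ ?_ ?_
    · rintro ⟨d, e, n⟩ hy
      rw [mem_filter, Set.Finite.mem_toFinset] at hy
      obtain ⟨hy1, hy2⟩ := hy
      simp only at hy2
      obtain ⟨e1, e2, e3, e4, e5, e6⟩ := key d e n hy1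
      obtain ⟨h1, h2, h3, h4, h5⟩ := hy1
      simp only at h1 h2 h3 h4 h5
      have hν : (((A * (n : ℤ) + κ).toNat : ℕ) : ℤ) = A * n + κ := Int.toNat_of_nonneg (by omega)
      rw [mem_filter, mem_filter, hT, TW, mem_filter, TP, mem_filter, mem_product, mem_product,
        mem_Icc, mem_Icc, mem_range, Nat.floor_natCast]
      simp only
      rw [hν]
      refine ⟨⟨⟨⟨⟨⟨?_, e1⟩, ⟨e4, e2⟩, ?_⟩, e5, ?_⟩, ?_, ?_, ?_, ?_⟩, ?_, dvd_mul_right _ _⟩, hy2⟩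
      · exact Nat.mul_pos (by omega) (by omega)
      · omega
      · nlinarith
      · push_cast
        rw [haAr]
        calc (A : ℝ) * s₁ / L * (L * X) = A * (s₁ * X) := by field_simp
          _ < A * d := mul_lt_mul_of_pos_left h2 hAr
      · push_cast
        rw [haAr]
        calc (A : ℝ) * d ≤ A * (s₂ * X) := mul_le_mul_of_nonneg_left h3 hAr.le
          _ = (A : ℝ) * s₂ / L * (L * X) := by field_simp
      · push_cast
        calc s₃ / L * (L * X) = s₃ * X := by field_simp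
          _ < e := h4
      · push_cast
        calc (e : ℝ) ≤ s₄ * X := h5
          _ = s₄ / L * (L * X) := by field_simp
      · rw [haA]
        exact ⟨n, by ring⟩
    · rintro ⟨D, e, ν⟩ hy
      rw [mem_filter, mem_filter, hT, TW, mem_filter, TP, mem_filter, mem_product, mem_product,
        mem_Icc, mem_Icc, mem_range, Nat.floor_natCast] at hy
      simp only at hy
      obtain ⟨⟨⟨⟨⟨⟨h1, h2⟩, ⟨h3, h4⟩, h5⟩, h6, h7⟩, h8, h9, h10, h11⟩, ⟨h12, h13⟩⟩, h14⟩ := hy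
      obtain ⟨d, rfl⟩ := h13
      obtain ⟨m, hm⟩ := h12
      rw [haA] at hm
      have hm0 : 0 < m := by
        by_contra hcon
        push Not at hcon
        have : A * m ≤ 0 := mul_nonpos_of_nonneg_of_nonpos hA.le hcon
        omega
      have hmn : ((m.toNat : ℕ) : ℤ) = m := Int.toNat_of_nonneg hm0.le
      rw [mem_filter, Set.Finite.mem_toFinset]
      simp only
      rw [hm, Int.mul_ediv_cancel_left _ hA.ne', Nat.mul_div_cancel_left _ (by omega : 0 < a)]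
      refine ⟨⟨?_, ?_, ?_, ?_, ?_⟩, ?_⟩
      · simp only
        rw [hmn]
        have e1 : (ν : ℤ) = A * m + κ := by linarith
        rw [e1] at h6
        push_cast at h6
        rw [haA] at h6
        have e2 : A * ((d : ℤ) * e) = A * (A * m ^ 2 + B * m + C) := by
          have : A * (A * m ^ 2 + B * m + C) = A ^ 2 * m ^ 2 + B * A * m + A * C := by ring
          rw [this, hAC, hκ]
          rw [mul_assoc] at h6
          rw [h6]
          ring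
        exact mul_left_cancel₀ hA.ne' e2
      · simp only
        push_cast at h8
        rw [haAr] at h8
        have e1 : (A : ℝ) * s₁ / L * (L * X) = A * (s₁ * X) := by field_simp
        rw [e1] at h8
        exact lt_of_mul_lt_mul_left h8 hAr.le
      · simp only
        push_cast at h9
        rw [haAr] at h9
        have e1 : (A : ℝ) * s₂ / L * (L * X) = A * (s₂ * X) := by field_simp
        rw [e1] at h9
        exact le_of_mul_le_mul_left h9 hAr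
      · simp only
        push_cast at h10
        have e1 : s₃ / L * (L * X) = s₃ * X := by field_simp
        rwa [e1] at h10
      · simp only
        push_cast at h11
        have e1 : s₄ / L * (L * X) = s₄ * X := by field_simp
        rwa [e1] at h11
      · rw [hmn]
        linarith
    · rintro ⟨d, e, n⟩ hy
      rw [mem_filter] at hy
      have hy2 := hy.2
      simp only at hy2 ⊢
      have hν : (((A * (n : ℤ) + κ).toNat : ℕ) : ℤ) = A * n + κ := Int.toNat_of_nonneg (by omega)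
      rw [hν, Nat.mul_div_cancel_left _ (by omega : 0 < a), add_sub_cancel_right,
        Int.mul_ediv_cancel_left _ hA.ne', Int.toNat_natCast]
    · rintro ⟨D, e, ν⟩ hy
      rw [mem_filter, mem_filter] at hy
      obtain ⟨⟨-, h12, h13⟩, h14⟩ := hy
      simp only at h12 h13 h14 ⊢
      obtain ⟨d, rfl⟩ := h13
      obtain ⟨m, hm⟩ := h12
      rw [haA] at hm
      have hm0 : 0 < m := by
        by_contra hcon
        push Not at hcon
        have : A * m ≤ 0 := mul_nonpos_of_nonneg_of_nonpos hA.le hcon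
        omega
      rw [hm, Int.mul_ediv_cancel_left _ hA.ne', Nat.mul_div_cancel_left _ (by omega : 0 < a),
        Int.toNat_of_nonneg hm0.le, ← hm, sub_add_cancel, Int.toNat_natCast]
    · rintro ⟨d, e, n⟩ hy
      rw [mem_filter, Set.Finite.mem_toFinset] at hy
      obtain ⟨hy1, hy2⟩ := hy
      simp only at hy2
      obtain ⟨e1, e2, e3, e4, e5, e6⟩ := key d e n hy1
      have hν : (((A * (n : ℤ) + κ).toNat : ℕ) : ℤ) = A * n + κ := Int.toNat_of_nonneg (by omega)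
      rw [hF, hF']
      simp only
      rw [(wt_val hq ha w κ (A * (n : ℤ) + κ).toNat (a * d) e).1
        ⟨by rw [hν, haA]; exact ⟨n, by ring⟩, dvd_mul_right _ _⟩, hν,
        Nat.mul_div_cancel_left _ (by omega : 0 < a), add_sub_cancel_right, haA,
        Int.mul_ediv_cancel_left _ hA.ne', hg.mul a d (by omega) (by omega), Int.cast_natCast]
      field_simp
  have hsplitT : ∑ y ∈ T, F' y =
      ∑ y ∈ T.filter (fun y => (a : ℤ) ∣ (y.2.2 : ℤ) - κ ∧ a ∣ y.1), F' y := by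
    rw [sum_filter_of_ne]
    intro y hy hne
    by_contra hcon
    apply hne
    rw [hF']
    simp only
    rw [(wt_val hq ha w κ y.2.2 y.1 y.2.1).2 hcon, zero_mul]
  have hb1 : ‖∑ y ∈ hSfin.toFinset.filter (fun y => ¬ (1 + (κ.natAbs : ℤ) ≤ A * y.2.2 + κ)), F y‖ ≤
      Wb w * hfin1.toFinset.card := by
    have e1 : ∀ y ∈ hSfin.toFinset.filter (fun y => ¬ (1 + (κ.natAbs : ℤ) ≤ A * y.2.2 + κ)),
        ‖F y‖ ≤ Wb w := by
      rintro ⟨d, e, n⟩ hy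
      rw [mem_filter, Set.Finite.mem_toFinset] at hy
      obtain ⟨-, -, e3, e4, -, -⟩ := key d e n hy.1
      rw [hF]
      exact term_le hg hh w _ _ _ (by simp only; omega) (by simp only; omega)
    refine (norm_sum_le_of_le _ e1).trans ?_
    rw [sum_const, nsmul_eq_mul, mul_comm]
    refine mul_le_mul_of_nonneg_left ?_ (Wb_nonneg w)
    have e2 : hSfin.toFinset.filter (fun y => ¬ (1 + (κ.natAbs : ℤ) ≤ A * y.2.2 + κ)) ⊆
        hfin1.toFinset := by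
      rintro ⟨d, e, n⟩ hy
      rw [mem_filter, Set.Finite.mem_toFinset] at hy
      rw [Set.Finite.mem_toFinset]
      obtain ⟨hy1, hy2⟩ := hy
      refine ⟨?_, hy1.1⟩
      simp only at hy2 ⊢
      have h1 : (n : ℤ) ≤ A * n := by nlinarith [Int.natCast_nonneg n]
      omega
    exact_mod_cast card_le_card e2
  have hb2 : ‖∑ y ∈ (T.filter (fun y => (a : ℤ) ∣ (y.2.2 : ℤ) - κ ∧ a ∣ y.1)).filter
      (fun y => ¬ (1 + (κ.natAbs : ℤ) ≤ y.2.2)), F' y‖ ≤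
      Wb (wt w a κ) * hfin2.toFinset.card := by
    have e1 : ∀ y ∈ (T.filter (fun y => (a : ℤ) ∣ (y.2.2 : ℤ) - κ ∧ a ∣ y.1)).filter
        (fun y => ¬ (1 + (κ.natAbs : ℤ) ≤ y.2.2)), ‖F' y‖ ≤ Wb (wt w a κ) := by
      intro y hy
      rw [mem_filter, mem_filter] at hy
      have := hTpos y hy.1.1
      rw [hF']
      exact term_le hg hh (wt w a κ) _ _ _ (by omega) (by omega)
    refine (norm_sum_le_of_le _ e1).trans ?_
    rw [sum_const, nsmul_eq_mul, mul_comm]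
    refine mul_le_mul_of_nonneg_left ?_ (Wb_nonneg _)
    have e2 : (T.filter (fun y => (a : ℤ) ∣ (y.2.2 : ℤ) - κ ∧ a ∣ y.1)).filter
        (fun y => ¬ (1 + (κ.natAbs : ℤ) ≤ y.2.2)) ⊆ hfin2.toFinset := by
      intro y hy
      rw [mem_filter, mem_filter, hT, TW, mem_filter, TP, mem_filter] at hy
      rw [Set.Finite.mem_toFinset]
      obtain ⟨⟨⟨⟨-, h1, -⟩, -⟩, -⟩, h2⟩ := hy
      refine ⟨by omega, ?_⟩
      show (y.1 : ℤ) * y.2.1 = 1 * (y.2.2 : ℤ) ^ 2 + t * y.2.2 + c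
      rw [h1, one_mul]
    exact_mod_cast card_le_card e2
  have hfinal : ∑ y ∈ hSfin.toFinset, F y = (g a)⁻¹ * (∑ y ∈ T, F' y -
      ∑ y ∈ (T.filter (fun y => (a : ℤ) ∣ (y.2.2 : ℤ) - κ ∧ a ∣ y.1)).filter
        (fun y => ¬ (1 + (κ.natAbs : ℤ) ≤ y.2.2)), F' y) +
      ∑ y ∈ hSfin.toFinset.filter (fun y => ¬ (1 + (κ.natAbs : ℤ) ≤ A * y.2.2 + κ)), F y := by
    rw [hsplitT, ← sum_filter_add_sum_filter_not (T.filter (fun y => (a : ℤ) ∣ (y.2.2 : ℤ) - κ ∧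
      a ∣ y.1)) (fun y => 1 + (κ.natAbs : ℤ) ≤ y.2.2) F', add_sub_cancel_right, ← hmapsto]
    exact (sum_filter_add_sum_filter_not _ _ _).symm
  have hga' : ‖(g a)⁻¹‖ = 1 := by rw [norm_inv, hga, inv_one]
  have e1 : ‖∑ᶠ y ∈ TQ A B C s₁ s₂ s₃ s₄ (X : ℝ), F y‖ ≤ ‖∑ y ∈ T, F' y‖ +
      (Wb w * hfin1.toFinset.card + Wb (wt w a κ) * hfin2.toFinset.card) := by
    rw [goal1, hfinal]
    refine (norm_add_le _ _).trans ?_
    rw [norm_mul, hga', one_mul]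
    have := norm_sub_le (∑ y ∈ T, F' y) (∑ y ∈ (T.filter (fun y => (a : ℤ) ∣ (y.2.2 : ℤ) - κ ∧
      a ∣ y.1)).filter (fun y => ¬ (1 + (κ.natAbs : ℤ) ≤ y.2.2)), F' y)
    linarith
  rw [hF, hF', hT] at e1
  exact e1

lemma exists_kap {A B C t c : ℤ} (hD : B ^ 2 - 4 * A * C = t ^ 2 - 4 * c) :
    ∃ κ : ℤ, B = 2 * κ + t := by
  have h0 : (B - t) * (B + t) = 4 * (A * C - c) := by linarith
  have h1 : (B - t) % 2 = 0 := by
    by_contra h
    have h2 : (B - t) % 2 = 1 := by omega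
    have h3 : (B + t) % 2 = 1 := by omega
    have h4 : ((B - t) * (B + t)) % 2 = 1 := by
      rw [Int.mul_emod, h2, h3]
      norm_num
    omega
  exact ⟨(B - t) / 2, by omega⟩

lemma log_large (x : ℝ) : ∃ N₀ : ℕ, ∀ N : ℕ, N₀ ≤ N → x ≤ Real.log N := by
  obtain ⟨N₀, hN₀⟩ := exists_nat_ge (Real.exp x)
  refine ⟨N₀, fun N hN => ?_⟩
  rw [← Real.log_exp x]
  refine Real.log_le_log (Real.exp_pos _) (hN₀.trans ?_)
  exact_mod_cast hN

/-- the case of an aperiodic second function -/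
lemma core_h (h1 : S_CORE1) (h8 : S_LC8) : ∀ A B C t c : ℤ, 0 < A → (t = 0 ∨ t = 1) →
  t ^ 2 < 4 * c → B ^ 2 - 4 * A * C = t ^ 2 - 4 * c → ∀ (N : ℕ) (g h : ℕ → ℂ),
  CMN N g → CMN N h → Apd N (gn h : Qd t c → ℂ) → ∀ q : ℕ, 1 ≤ q →
  ∀ w : ZMod q → ZMod q → ZMod q → ℂ, ∀ (s₁ s₂ s₃ s₄ : ℝ), 0 ≤ s₁ → s₁ < s₂ → 0 ≤ s₃ →
  s₃ < s₄ → ∀ ε : ℝ, 0 < ε → ∃ N₀ : ℕ, ∀ N' : ℕ, N₀ ≤ N' →
    ∑ X ∈ Icc 1 N', 1 / (X : ℝ) ^ 2 * ‖∑ᶠ y ∈ TQ A B C s₁ s₂ s₃ s₄ X,
      w y.2.2 y.1 y.2.1 * (g y.1 * h y.2.1)‖ ≤ ε * Real.log N' := by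
  intro A B C t c hA ht htc hD N g h hg hh hap q hq w s₁ s₂ s₃ s₄ hs1 hs12 hs3 hs34 ε hε
  obtain ⟨κ, hκ⟩ := exists_kap hD
  obtain ⟨a, haA⟩ : ∃ a : ℕ, (a : ℤ) = A := ⟨A.toNat, Int.toNat_of_nonneg hA.le⟩
  have ha : 1 ≤ a := by
    have : (0 : ℤ) < a := by rw [haA]; exact hA
    omega
  have hAr : (0 : ℝ) < A := by exact_mod_cast hA
  obtain ⟨L, hL, hL2, hL4⟩ : ∃ L : ℕ, 1 ≤ L ∧ A * s₂ ≤ L ∧ s₄ ≤ (L : ℝ) := by
    obtain ⟨L, hL⟩ := exists_nat_ge (max (A * s₂) s₄)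
    refine ⟨L + 1, by omega, ?_, ?_⟩
    · push_cast
      have := (le_max_left _ _).trans hL
      linarith
    · push_cast
      have := (le_max_right _ _).trans hL
      linarith
  have hLr : (0 : ℝ) < L := by exact_mod_cast hL
  obtain ⟨K, hK0, hK⟩ := scale ha haA ht htc hD hκ hg hh hq w hs1 hs12 hs3 hs34 hL hL2 hL4
  have hqa : 1 ≤ q * a := Nat.mul_pos (by omega) (by omega)
  obtain ⟨N₁, hN₁⟩ := core1' h1 h8 t c ht htc N g h hg hh hap (q * a) hqa (wt w a κ)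
    (A * s₁ / L) (A * s₂ / L) (s₃ / L) (s₄ / L) (by positivity)
    (div_lt_div_of_pos_right (mul_lt_mul_of_pos_left hs12 hAr) hLr)
    (by rw [div_le_one hLr]; exact hL2) (by positivity) (div_lt_div_of_pos_right hs34 hLr)
    (by rw [div_le_one hLr]; exact hL4) (ε / (4 * (L : ℝ) ^ 2)) (by positivity)
  obtain ⟨N₂, hN₂⟩ := log_large (4 * K / ε)
  obtain ⟨N₃, hN₃⟩ := log_large (Real.log L)
  refine ⟨max N₁ (max N₂ (max N₃ 1)), fun N' hN' => ?_⟩
  have hN1 : N₁ ≤ N' := (le_max_left _ _).trans hN'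
  have hN2 : N₂ ≤ N' := (le_max_left _ _).trans ((le_max_right _ _).trans hN')
  have hN3 : N₃ ≤ N' :=
    (le_max_left _ _).trans ((le_max_right _ _).trans ((le_max_right _ _).trans hN'))
  have hN4 : 1 ≤ N' :=
    (le_max_right _ _).trans ((le_max_right _ _).trans ((le_max_right _ _).trans hN'))
  have hN'r : (0 : ℝ) < N' := by exact_mod_cast hN4
  have hmain := hN₁ (L * N') (hN1.trans (Nat.le_mul_of_pos_left _ (by omega)))
  have hl2 := hN₂ N' hN2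
  have hl3 := hN₃ N' hN3
  obtain ⟨f, hf⟩ : ∃ f : ℕ → ℝ, ∀ Y : ℕ, f Y = 1 / (Y : ℝ) ^ 2 *
      ‖∑ y ∈ TW t c (A * s₁ / L) (A * s₂ / L) (s₃ / L) (s₄ / L) (Y : ℝ),
        wt w a κ y.2.2 y.1 y.2.1 * (g y.1 * h y.2.1)‖ :=
    ⟨fun Y : ℕ => 1 / (Y : ℝ) ^ 2 *
      ‖∑ y ∈ TW t c (A * s₁ / L) (A * s₂ / L) (s₃ / L) (s₄ / L) (Y : ℝ),
        wt w a κ y.2.2 y.1 y.2.1 * (g y.1 * h y.2.1)‖, fun Y => rfl⟩
  have hf0 : ∀ Y, 0 ≤ f Y := fun Y => by rw [hf]; positivity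
  have hmain' : ∑ Y ∈ Icc 1 (L * N'), f Y ≤ ε / (4 * (L : ℝ) ^ 2) * Real.log ((L * N' : ℕ) : ℝ) := by
    rw [sum_congr rfl fun Y _ => hf Y]
    exact hmain
  have hone : ∀ X ∈ Icc 1 N', 1 / (X : ℝ) ^ 2 * ‖∑ᶠ y ∈ TQ A B C s₁ s₂ s₃ s₄ X,
      w y.2.2 y.1 y.2.1 * (g y.1 * h y.2.1)‖ ≤ (L : ℝ) ^ 2 * f (L * X) + K * (1 / (X : ℝ) ^ 2) := by
    intro X hX
    rw [mem_Icc] at hX
    have hXr : (0 : ℝ) < X := by
      have : 0 < X := by omega
      exact_mod_cast this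
    refine (mul_le_mul_of_nonneg_left (hK X hX.1) (by positivity)).trans (le_of_eq ?_)
    rw [hf]
    push_cast
    field_simp
  refine (sum_le_sum hone).trans ?_
  rw [sum_add_distrib, ← mul_sum, ← mul_sum]
  have h3 : ∑ X ∈ Icc 1 N', f (L * X) ≤ ∑ Y ∈ Icc 1 (L * N'), f Y := by
    rw [← sum_image (f := f) (g := fun X => L * X)
      (fun x _ y _ hxy => Nat.eq_of_mul_eq_mul_left (by omega) hxy)]
    refine sum_le_sum_of_subset_of_nonneg ?_ fun Y _ _ => hf0 Y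
    intro Y hY
    rw [mem_image] at hY
    obtain ⟨X, hX, rfl⟩ := hY
    rw [mem_Icc] at hX ⊢
    exact ⟨Nat.mul_pos (by omega) (by omega), Nat.mul_le_mul_left _ hX.2⟩
  have h4 : (L : ℝ) ^ 2 * ∑ X ∈ Icc 1 N', f (L * X) ≤ ε / 4 * (Real.log L + Real.log N') := by
    calc (L : ℝ) ^ 2 * ∑ X ∈ Icc 1 N', f (L * X)
        ≤ (L : ℝ) ^ 2 * (ε / (4 * (L : ℝ) ^ 2) * Real.log ((L * N' : ℕ) : ℝ)) :=
          mul_le_mul_of_nonneg_left (h3.trans hmain') (by positivity)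
      _ = ε / 4 * (Real.log L + Real.log N') := by
          push_cast
          rw [Real.log_mul hLr.ne' hN'r.ne']
          field_simp
  have h5 : K * ∑ X ∈ Icc 1 N', 1 / (X : ℝ) ^ 2 ≤ K * 2 :=
    mul_le_mul_of_nonneg_left (sqsum' N') hK0
  have h6 : 4 * K ≤ ε * Real.log N' := by
    rw [div_le_iff₀ hε] at hl2
    linarith
  nlinarith

theorem core2 (h1 : S_CORE1) (h8 : S_LC8) : S_CORE2 := by
  intro A B C t c hA ht htc hD N g h hg hh hap q hq w s₁ s₂ s₃ s₄ hs1 hs12 hs3 hs34 ε hε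
  rcases hap with hap | hap
  · obtain ⟨N₀, hN₀⟩ := core_h h1 h8 A B C t c hA ht htc hD N h g hh hg hap q hq
      (fun α β γ => w α γ β) s₃ s₄ s₁ s₂ hs3 hs34 hs1 hs12 ε hε
    refine ⟨N₀, fun N' hN' => le_trans (le_of_eq ?_) (hN₀ N' hN')⟩
    refine sum_congr rfl fun X _ => ?_
    congr 2
    refine finsum_mem_eq_of_bijOn (fun y => (y.2.1, y.1, y.2.2)) ?_ ?_
    · refine ⟨?_, ?_, ?_⟩
      · rintro ⟨d, e, n⟩ ⟨e1, e2, e3, e4, e5⟩
        refine ⟨?_, e4, e5, e2, e3⟩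
        simp only at e1 ⊢
        rw [← e1, mul_comm]
      · rintro ⟨d, e, n⟩ _ ⟨d', e', n'⟩ _ h
        simp only [Prod.mk.injEq] at h ⊢
        exact ⟨h.2.1, h.1, h.2.2⟩
      · rintro ⟨d, e, n⟩ ⟨e1, e2, e3, e4, e5⟩
        refine ⟨(e, d, n), ⟨?_, e4, e5, e2, e3⟩, rfl⟩
        simp only at e1 ⊢
        rw [← e1, mul_comm]
    · rintro ⟨d, e, n⟩ _
      simp only
      ring
  · exact core_h h1 h8 A B C t c hA ht htc hD N g h hg hh hap q hq w s₁ s₂ s₃ s₄ hs1 hs12 hs3 hs34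
      ε hε

end

end Pool.Agent.N492.LC
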